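import Pool.Agent.H676.G.R_seed8.W956.KF.Cost

set_option autoImplicit false
set_option linter.unusedSectionVars false

/-!
# Sequences of additions and multiplications, with their depth
-/

namespace Pool.Agent.Helper16K9.Fast

open Finset Pool.Agent.H522R2 Pool.Agent.H522R2.Circuit Pool.Agent.W956.KF

section

variable {R : Type} [CommRing R]

/-- `T'` is obtained from `T` by `s` additions and multiplications; the second components are
depths. -/
inductive Run (T : Set (R × ℕ)) : ℕ → Set (R × ℕ) → Prop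
  | refl : Run T 0 T
  | add {s : ℕ} {T' : Set (R × ℕ)} {x y : R} {a b : ℕ} : Run T s T' → (x, a) ∈ T' →
      (y, b) ∈ T' → Run T (s + 1) (insert (x + y, max a b + 1) T')
  | mul {s : ℕ} {T' : Set (R × ℕ)} {x y : R} {a b : ℕ} : Run T s T' → (x, a) ∈ T' →
      (y, b) ∈ T' → Run T (s + 1) (insert (x * y, max a b + 1) T')

theorem Run.subset {T T' : Set (R × ℕ)} {s : ℕ} (h : Run T s T') : T ⊆ T' := by
  induction h with
  | refl => exact subset_rfl
  | add _ _ _ ih => exact ih.trans (Set.subset_insert _ _)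
  | mul _ _ _ ih => exact ih.trans (Set.subset_insert _ _)

theorem Run.trans {T T' T'' : Set (R × ℕ)} {s s' : ℕ} (h : Run T s T') (h' : Run T' s' T'') :
    Run T (s + s') T'' := by
  induction h' with
  | refl => exact h
  | add _ hx hy ih => exact ih.add hx hy
  | mul _ hx hy ih => exact ih.mul hx hy

/-- every element of `T` occurs in `T1` with a depth which is larger by at most `d` -/
def Dom (T T1 : Set (R × ℕ)) (d : ℕ) : Prop :=
  ∀ x a, (x, a) ∈ T → ∃ b ≤ a + d, (x, b) ∈ T1

theorem Run.shift {T T' : Set (R × ℕ)} {s : ℕ} (h : Run T s T') {T1 : Set (R × ℕ)} {d : ℕ}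
    (hT : Dom T T1 d) : ∃ T1', Run T1 s T1' ∧ Dom T' T1' d := by
  induction h with
  | refl => exact ⟨T1, .refl, hT⟩
  | @add s T' x y a b _ hx hy ih =>
    obtain ⟨T1', h1, h2⟩ := ih
    obtain ⟨a', ha, hx'⟩ := h2 x a hx
    obtain ⟨b', hb, hy'⟩ := h2 y b hy
    refine ⟨_, h1.add hx' hy', ?_⟩
    rintro z c (hz | hz)
    · rw [Prod.mk.injEq] at hz
      obtain ⟨rfl, rfl⟩ := hz
      exact ⟨max a' b' + 1, by omega, Or.inl rfl⟩
    · obtain ⟨e, he, hz'⟩ := h2 z c hz
      exact ⟨e, he, Or.inr hz'⟩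
  | @mul s T' x y a b _ hx hy ih =>
    obtain ⟨T1', h1, h2⟩ := ih
    obtain ⟨a', ha, hx'⟩ := h2 x a hx
    obtain ⟨b', hb, hy'⟩ := h2 y b hy
    refine ⟨_, h1.mul hx' hy', ?_⟩
    rintro z c (hz | hz)
    · rw [Prod.mk.injEq] at hz
      obtain ⟨rfl, rfl⟩ := hz
      exact ⟨max a' b' + 1, by omega, Or.inl rfl⟩
    · obtain ⟨e, he, hz'⟩ := h2 z c hz
      exact ⟨e, he, Or.inr hz'⟩

/-- the elements of `T` with depth zero -/
def base (T : Set R) : Set (R × ℕ) := {z | z.1 ∈ T ∧ z.2 = 0}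

theorem mem_base {T : Set R} {x : R} {a : ℕ} : (x, a) ∈ base T ↔ x ∈ T ∧ a = 0 := Iff.rfl

/-- From the elements of `T` all elements of `P` can be computed with at most `s` additions and
multiplications, in depth at most `d`. -/
def DCost (T P : Set R) (s d : ℕ) : Prop :=
  ∃ s' ≤ s, ∃ T', Run (base T) s' T' ∧ ∀ x ∈ P, ∃ a ≤ d, (x, a) ∈ T'

theorem DCost.of_subset {T P : Set R} (h : P ⊆ T) (s d : ℕ) : DCost T P s d :=
  ⟨0, Nat.zero_le _, base T, .refl, fun x hx => ⟨0, Nat.zero_le _, h hx, rfl⟩⟩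

theorem DCost.mono {T P T1 P1 : Set R} {s s1 d d1 : ℕ} (h : DCost T P s d) (hT : T ⊆ T1)
    (hP : P1 ⊆ P) (hs : s ≤ s1) (hd : d ≤ d1) : DCost T1 P1 s1 d1 := by
  obtain ⟨s', hs', T', h1, h2⟩ := h
  have h0 : Dom (base T) (base T1) 0 := by
    rintro x a ⟨hx, ha⟩
    exact ⟨a, le_rfl, hT hx, ha⟩
  obtain ⟨T1', h3, h4⟩ := h1.shift h0
  refine ⟨s', hs'.trans hs, T1', h3, fun x hx => ?_⟩
  obtain ⟨a, ha, hxa⟩ := h2 x (hP hx)
  obtain ⟨b, hb, hxb⟩ := h4 x a hxa
  exact ⟨b, by omega, hxb⟩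

theorem DCost.comp {T P Q : Set R} {s s' d d' : ℕ} (h : DCost T P s d)
    (h' : DCost (T ∪ P) Q s' d') : DCost T (P ∪ Q) (s + s') (d + d') := by
  obtain ⟨a, ha, T', h1, h2⟩ := h
  obtain ⟨b, hb, T'', h3, h4⟩ := h'
  have h0 : Dom (base (T ∪ P)) T' d := by
    rintro x c ⟨hx | hx, rfl⟩
    · exact ⟨0, Nat.zero_le _, h1.subset ⟨hx, rfl⟩⟩
    · obtain ⟨e, he, hxe⟩ := h2 x hx
      exact ⟨e, by omega, hxe⟩
  obtain ⟨T1, h5, h6⟩ := h3.shift h0
  refine ⟨a + b, Nat.add_le_add ha hb, T1, h1.trans h5, ?_⟩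
  rintro x (hx | hx)
  · obtain ⟨e, he, hxe⟩ := h2 x hx
    exact ⟨e, by omega, h5.subset hxe⟩
  · obtain ⟨e, he, hxe⟩ := h4 x hx
    obtain ⟨e', he', hxe'⟩ := h6 x e hxe
    exact ⟨e', by omega, hxe'⟩

theorem DCost.union {T P Q : Set R} {s s' d : ℕ} (h : DCost T P s d) (h' : DCost T Q s' d) :
    DCost T (P ∪ Q) (s + s') d := by
  obtain ⟨a, ha, T', h1, h2⟩ := h
  obtain ⟨b, hb, T'', h3, h4⟩ := h'
  have h0 : Dom (base T) T' 0 := by
    intro x c hx
    exact ⟨c, by omega, h1.subset hx⟩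
  obtain ⟨T1, h5, h6⟩ := h3.shift h0
  refine ⟨a + b, Nat.add_le_add ha hb, T1, h1.trans h5, ?_⟩
  rintro x (hx | hx)
  · obtain ⟨e, he, hxe⟩ := h2 x hx
    exact ⟨e, by omega, h5.subset hxe⟩
  · obtain ⟨e, he, hxe⟩ := h4 x hx
    obtain ⟨e', he', hxe'⟩ := h6 x e hxe
    exact ⟨e', by omega, hxe'⟩

theorem DCost.iUnion {T : Set R} {ι : Type} [Fintype ι] {P : ι → Set R} {s d : ℕ}
    (h : ∀ i, DCost T (P i) s d) : DCost T (⋃ i, P i) (Fintype.card ι * s) d := by
  classical
  have h1 : ∀ S : Finset ι, DCost T (⋃ i ∈ S, P i) (S.card * s) d := by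
    intro S
    induction S using Finset.induction_on with
    | empty => exact DCost.of_subset (by simp) _ _
    | insert a S ha ih =>
      rw [Finset.set_biUnion_insert, Finset.card_insert_of_notMem ha]
      refine ((h a).union ih).mono subset_rfl subset_rfl (le_of_eq ?_) le_rfl
      ring
  have h2 := h1 univ
  simpa using h2

theorem DCost.range {T : Set R} {ι : Type} [Fintype ι] {x : ι → R} {s d : ℕ}
    (h : ∀ i, DCost T {x i} s d) : DCost T (Set.range x) (Fintype.card ι * s) d := by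
  refine (DCost.iUnion h).mono subset_rfl ?_ le_rfl le_rfl
  rintro _ ⟨i, rfl⟩
  exact Set.mem_iUnion.2 ⟨i, rfl⟩

theorem DCost.add {T : Set R} {x y : R} (hx : x ∈ T) (hy : y ∈ T) : DCost T {x + y} 1 1 := by
  refine ⟨1, le_rfl, _, Run.add .refl (a := 0) (b := 0) ⟨hx, rfl⟩ ⟨hy, rfl⟩, ?_⟩
  rintro z rfl
  exact ⟨1, le_rfl, Or.inl rfl⟩

theorem DCost.mul {T : Set R} {x y : R} (hx : x ∈ T) (hy : y ∈ T) : DCost T {x * y} 1 1 := by
  refine ⟨1, le_rfl, _, Run.mul .refl (a := 0) (b := 0) ⟨hx, rfl⟩ ⟨hy, rfl⟩, ?_⟩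
  rintro z rfl
  exact ⟨1, le_rfl, Or.inl rfl⟩

/-- sums in logarithmic depth -/
theorem DCost.sum_ne {T : Set R} {ι : Type} (d : ℕ) : ∀ (S : Finset ι) (x : ι → R),
    S.Nonempty → S.card ≤ 2 ^ d → (∀ i ∈ S, x i ∈ T) →
      DCost T {∑ i ∈ S, x i} (S.card - 1) d := by
  classical
  induction d with
  | zero =>
    intro S x hne hc hx
    have h1 : S.card = 1 := le_antisymm (by simpa using hc) hne.card_pos
    obtain ⟨a, rfl⟩ := Finset.card_eq_one.1 h1
    refine DCost.of_subset ?_ _ _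
    rintro z rfl
    simpa using hx a (by simp)
  | succ d ih =>
    intro S x hne hc hx
    by_cases h1 : S.card ≤ 2 ^ d
    · exact (ih S x hne h1 hx).mono subset_rfl subset_rfl le_rfl (Nat.le_succ _)
    · push Not at h1
      obtain ⟨S1, hS1, hc1⟩ := Finset.exists_subset_card_eq h1.le
      have hc2 : (S \ S1).card = S.card - 2 ^ d := by
        rw [Finset.card_sdiff_of_subset hS1, hc1]
      have hn1 : S1.Nonempty := by
        rw [← Finset.card_pos, hc1]
        positivity
      have hn2 : (S \ S1).Nonempty := by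
        rw [← Finset.card_pos, hc2]
        omega
      have g1 := ih S1 x hn1 hc1.le fun i hi => hx i (hS1 hi)
      have g2 := ih (S \ S1) x hn2 (by rw [hc2]; rw [pow_succ] at hc; omega) fun i hi =>
        hx i (Finset.sdiff_subset hi)
      have g3 : DCost (T ∪ ({∑ i ∈ S1, x i} ∪ {∑ i ∈ S \ S1, x i}))
          {∑ i ∈ S1, x i + ∑ i ∈ S \ S1, x i} 1 1 :=
        DCost.add (Or.inr (Or.inl rfl)) (Or.inr (Or.inr rfl))
      have e : ∑ i ∈ S, x i = ∑ i ∈ S1, x i + ∑ i ∈ S \ S1, x i := by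
        rw [add_comm, Finset.sum_sdiff hS1]
      rw [e]
      refine ((g1.union g2).comp g3).mono subset_rfl Set.subset_union_right ?_ le_rfl
      have p1 := hn1.card_pos
      have p2 := hn2.card_pos
      omega

theorem DCost.sum {T : Set R} (h0 : (0 : R) ∈ T) {ι : Type} (S : Finset ι) (x : ι → R)
    (hx : ∀ i ∈ S, x i ∈ T) {d : ℕ} (hd : S.card ≤ 2 ^ d) : DCost T {∑ i ∈ S, x i} S.card d := by
  rcases S.eq_empty_or_nonempty with rfl | hne
  · refine DCost.of_subset ?_ _ _
    rintro z rfl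
    simpa using h0
  · exact (DCost.sum_ne d S x hne hd hx).mono subset_rfl subset_rfl (Nat.sub_le _ _) le_rfl

end

/-! ### Circuits -/

section

variable {K : Type} [Field K] {V : Type}

theorem depth_snoc (C : Circuit K V) (g : Gate K V C.nodes) (k : Fin C.nodes) :
    (snoc C g).depth k.castSucc = C.depth k := by
  obtain ⟨k, hk⟩ := k
  induction k using Nat.strong_induction_on with
  | _ k ih =>
    refine (Circuit.depth.eq_def (snoc C g) (Fin.castSucc ⟨k, hk⟩)).trans ?_
    refine Eq.trans ?_ (Circuit.depth.eq_def C ⟨k, hk⟩).symm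
    have h1 := snoc_gate_castSucc C g ⟨k, hk⟩
    cases h : C.gate ⟨k, hk⟩ with
    | var x => rw [h] at h1; rw [h1]
    | const c => rw [h] at h1; rw [h1]
    | add i j =>
      rw [h] at h1; rw [h1]
      simp only
      exact congrArg (· + 1) (congrArg₂ _ (ih i i.2 (i.2.trans hk)) (ih j j.2 (j.2.trans hk)))
    | mul i j =>
      rw [h] at h1; rw [h1]
      simp only
      exact congrArg (· + 1) (congrArg₂ _ (ih i i.2 (i.2.trans hk)) (ih j j.2 (j.2.trans hk)))

theorem depth_snoc_last (C : Circuit K V) (g : Gate K V C.nodes) :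
    (snoc C g).depth (Fin.last C.nodes) = match g with
      | .var _ => 0
      | .const _ => 0
      | .add i j => max (C.depth i) (C.depth j) + 1
      | .mul i j => max (C.depth i) (C.depth j) + 1 := by
  refine (Circuit.depth.eq_def (snoc C g) (Fin.last C.nodes)).trans ?_
  have h1 := snoc_gate_last C g
  cases g with
  | var x => rw [h1]
  | const c => rw [h1]
  | add i j =>
    rw [h1]
    simp only
    exact congrArg (· + 1) (congrArg₂ _ (depth_snoc C _ i) (depth_snoc C _ j))
  | mul i j =>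
    rw [h1]
    simp only
    exact congrArg (· + 1) (congrArg₂ _ (depth_snoc C _ i) (depth_snoc C _ j))

/-- the circuit computes the polynomials in `P` at nodes of the given depths -/
def CompD (C : Circuit K V) (P : Set (MvPolynomial V K × ℕ)) : Prop :=
  ∀ z ∈ P, ∃ k : Fin C.nodes, C.poly k = z.1 ∧ C.depth k ≤ z.2

theorem CompD.snoc {C : Circuit K V} {P : Set (MvPolynomial V K × ℕ)} (h : CompD C P)
    (g : Gate K V C.nodes) : CompD (Pool.Agent.W956.KF.snoc C g) P := by
  intro z hz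
  obtain ⟨k, hk, hd⟩ := h z hz
  exact ⟨k.castSucc, (poly_snoc C g k).trans hk, (depth_snoc C g k).le.trans hd⟩

theorem exists_circuit_of_run {s : ℕ} {T' : Set (MvPolynomial V K × ℕ)}
    (h : Run (base (inputs K V)) s T') : ∀ P : Finset (MvPolynomial V K × ℕ), (P : Set _) ⊆ T' →
      ∃ C : Circuit K V, C.size ≤ s ∧ CompD C P := by
  classical
  induction h with
  | refl =>
    intro P hP
    induction P using Finset.induction_on with
    | empty =>
      refine ⟨⟨0, fun k => k.elim0⟩, ?_, fun x hx => absurd hx (by simp)⟩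
      unfold size
      have : IsEmpty (Fin (⟨0, fun k => k.elim0⟩ : Circuit K V).nodes) := Fin.isEmpty'
      rw [Nat.card_eq_zero.2 (Or.inl inferInstance)]
    | insert a P ha ih =>
      rw [Finset.coe_insert] at hP
      obtain ⟨C, hs, hC⟩ := ih ((Set.subset_insert _ _).trans hP)
      obtain ⟨h1, h2⟩ := hP (Set.mem_insert a _)
      rcases h1 with ⟨v, hv⟩ | ⟨c, hc⟩
      · refine ⟨snoc C (.var v), (size_snoc_input C _ (by simp)).trans hs, ?_⟩
        intro x hx
        rw [Finset.coe_insert] at hx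
        rcases hx with rfl | hx
        · exact ⟨Fin.last _, (poly_snoc_last C _).trans hv,
            ((depth_snoc_last C _).trans rfl).le.trans (Nat.zero_le _)⟩
        · exact hC.snoc _ x hx
      · refine ⟨snoc C (.const c), (size_snoc_input C _ (by simp)).trans hs, ?_⟩
        intro x hx
        rw [Finset.coe_insert] at hx
        rcases hx with rfl | hx
        · exact ⟨Fin.last _, (poly_snoc_last C _).trans hc,
            ((depth_snoc_last C _).trans rfl).le.trans (Nat.zero_le _)⟩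
        · exact hC.snoc _ x hx
  | @add s T' x y a b hT hx hy ih =>
    intro P hP
    obtain ⟨C, hs, hC⟩ := ih (insert (x, a) (insert (y, b) (P.erase (x + y, max a b + 1)))) (by
      intro z hz
      simp only [Finset.coe_insert, Finset.coe_erase, Set.mem_insert_iff, Set.mem_sdiff,
        Set.mem_singleton_iff, Finset.mem_coe] at hz
      rcases hz with rfl | rfl | ⟨hz, hne⟩
      · exact hx
      · exact hy
      · rcases hP hz with h1 | h1
        · exact absurd h1 hne
        · exact h1)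
    obtain ⟨i, hi, hi'⟩ := hC (x, a) (by simp)
    obtain ⟨j, hj, hj'⟩ := hC (y, b) (by simp)
    simp only at hi hj hi' hj'
    refine ⟨snoc C (.add i j), (size_snoc_le C _).trans (by omega), ?_⟩
    intro z hz
    by_cases hzx : z = (x + y, max a b + 1)
    · refine ⟨Fin.last _, (poly_snoc_last C _).trans ?_, (depth_snoc_last C _).le.trans ?_⟩
      · simp only
        rw [hi, hj, hzx]
      · simp only [hzx]
        omega
    · exact hC.snoc _ z (by
        simp only [Finset.coe_insert, Finset.coe_erase, Set.mem_insert_iff, Set.mem_sdiff,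
          Set.mem_singleton_iff, Finset.mem_coe]
        exact Or.inr (Or.inr ⟨hz, hzx⟩))
  | @mul s T' x y a b hT hx hy ih =>
    intro P hP
    obtain ⟨C, hs, hC⟩ := ih (insert (x, a) (insert (y, b) (P.erase (x * y, max a b + 1)))) (by
      intro z hz
      simp only [Finset.coe_insert, Finset.coe_erase, Set.mem_insert_iff, Set.mem_sdiff,
        Set.mem_singleton_iff, Finset.mem_coe] at hz
      rcases hz with rfl | rfl | ⟨hz, hne⟩
      · exact hx
      · exact hy
      · rcases hP hz with h1 | h1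
        · exact absurd h1 hne
        · exact h1)
    obtain ⟨i, hi, hi'⟩ := hC (x, a) (by simp)
    obtain ⟨j, hj, hj'⟩ := hC (y, b) (by simp)
    simp only at hi hj hi' hj'
    refine ⟨snoc C (.mul i j), (size_snoc_le C _).trans (by omega), ?_⟩
    intro z hz
    by_cases hzx : z = (x * y, max a b + 1)
    · refine ⟨Fin.last _, (poly_snoc_last C _).trans ?_, (depth_snoc_last C _).le.trans ?_⟩
      · simp only
        rw [hi, hj, hzx]
      · simp only [hzx]
        omega
    · exact hC.snoc _ z (by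
        simp only [Finset.coe_insert, Finset.coe_erase, Set.mem_insert_iff, Set.mem_sdiff,
          Set.mem_singleton_iff, Finset.mem_coe]
        exact Or.inr (Or.inr ⟨hz, hzx⟩))

theorem exists_circuit_of_dcost {s d : ℕ} {P : Set (MvPolynomial V K)} (hP : P.Finite)
    (h : DCost (inputs K V) P s d) : ∃ C : Circuit K V, C.size ≤ s ∧
      ∀ x ∈ P, ∃ k : Fin C.nodes, C.poly k = x ∧ C.depth k ≤ d := by
  classical
  obtain ⟨s', hs, T', h1, h2⟩ := h
  choose! a ha1 ha2 using h2
  obtain ⟨C, h3, h4⟩ := exists_circuit_of_run h1 (hP.toFinset.image fun x => (x, a x)) (by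
    intro z hz
    simp only [Finset.coe_image, Set.Finite.coe_toFinset, Set.mem_image] at hz
    obtain ⟨x, hx, rfl⟩ := hz
    exact ha2 x hx)
  refine ⟨C, h3.trans hs, fun x hx => ?_⟩
  obtain ⟨k, hk, hd⟩ := h4 (x, a x) (by
    simp only [Finset.coe_image, Set.Finite.coe_toFinset, Set.mem_image]
    exact ⟨x, hx, rfl⟩)
  exact ⟨k, hk, hd.trans (ha1 x hx)⟩

end

end Pool.Agent.Helper16K9.Fast
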