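import Pool.Agent.H676.G.R_pool_sql_team_seeded_1e53cb71.Helper16K9.Fast.DCost
import Pool.Agent.H676.G.R_seed8.W956.KF.Run

set_option autoImplicit false
set_option linter.unusedSectionVars false

/-!
# Strassen's recursion in which the linear forms are computed by matrix multiplication
-/

namespace Pool.Agent.Helper16K9.Fast

open Finset Pool.Agent.W956.KF

/-- Two matrices indexed by `ι` over a commutative `K`-algebra can be multiplied with `s` additions
and multiplications, in depth `d`. -/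
def DMM (K : Type) [Field K] (ι : Type) [Fintype ι] (s d : ℕ) : Prop :=
  ∀ (R : Type) [CommRing R] [Algebra K R] (T : Set R), (∀ c : K, algebraMap K R c ∈ T) →
    ∀ A B : Matrix ι ι R, (∀ i j, A i j ∈ T) → (∀ i j, B i j ∈ T) →
      DCost T {x | ∃ i j, x = (A * B) i j} s d

variable {K : Type} [Field K]

theorem DMM.mono {ι : Type} [Fintype ι] {s s' d d' : ℕ} (h : DMM K ι s d) (hs : s ≤ s')
    (hd : d ≤ d') : DMM K ι s' d' := fun R _ _ T hT A B hA hB =>
  (h R T hT A B hA hB).mono subset_rfl subset_rfl hs hd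

theorem DMM.reindex {ι ι' : Type} [Fintype ι] [Fintype ι'] (e : ι' ≃ ι) {s d : ℕ}
    (h : DMM K ι s d) : DMM K ι' s d := by
  intro R _ _ T hT A B hA hB
  refine (h R T hT (A.submatrix e.symm e.symm) (B.submatrix e.symm e.symm) (fun i j => hA _ _)
    (fun i j => hB _ _)).mono subset_rfl ?_ le_rfl le_rfl
  rintro x ⟨i, j, rfl⟩
  refine ⟨e i, e j, ?_⟩
  rw [Matrix.submatrix_mul_equiv]
  simp

theorem DMM.pad {ι κ : Type} [Fintype ι] [Fintype κ] {s d : ℕ} (h : DMM K (ι ⊕ κ) s d) :
    DMM K ι s d := by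
  intro R _ _ T hT A B hA hB
  have h0 : (0 : R) ∈ T := by simpa using hT 0
  refine (h R T hT (Matrix.fromBlocks A 0 0 0) (Matrix.fromBlocks B 0 0 0) ?_ ?_).mono
    subset_rfl ?_ le_rfl le_rfl
  · rintro (i | i) (j | j)
    · exact hA i j
    · exact h0
    · exact h0
    · exact h0
  · rintro (i | i) (j | j)
    · exact hB i j
    · exact h0
    · exact h0
    · exact h0
  · rintro x ⟨i, j, rfl⟩
    refine ⟨.inl i, .inl j, ?_⟩
    rw [Matrix.fromBlocks_multiply]
    simp

theorem DMM.of_le {m n s d : ℕ} (h : DMM K (Fin n) s d) (hmn : m ≤ n) : DMM K (Fin m) s d := by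
  have e : Fin m ⊕ Fin (n - m) ≃ Fin n := finSumFinEquiv.trans (finCongr (by omega))
  exact (h.reindex e).pad

/-- the school method -/
theorem dmm_school (n d : ℕ) (hn : n ≤ 2 ^ d) : DMM K (Fin n) (2 * n ^ 3) (d + 1) := by
  intro R _ _ T hT A B hA hB
  have h0 : (0 : R) ∈ T := by simpa using hT 0
  have h1 : DCost T (Set.range fun t : Fin n × Fin n × Fin n => A t.1 t.2.1 * B t.2.1 t.2.2)
      (Fintype.card (Fin n × Fin n × Fin n) * 1) 1 :=
    DCost.range fun t => DCost.mul (hA _ _) (hB _ _)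
  have h2 : DCost (T ∪ Set.range fun t : Fin n × Fin n × Fin n => A t.1 t.2.1 * B t.2.1 t.2.2)
      (Set.range fun t : Fin n × Fin n => ∑ j, A t.1 j * B j t.2)
      (Fintype.card (Fin n × Fin n) * n) d := by
    refine DCost.range fun t => ?_
    have h3 := DCost.sum (T := T ∪ Set.range fun t : Fin n × Fin n × Fin n =>
      A t.1 t.2.1 * B t.2.1 t.2.2) (Set.mem_union_left _ h0) (univ : Finset (Fin n))
      (fun j => A t.1 j * B j t.2) (fun j _ => Or.inr ⟨(t.1, j, t.2), rfl⟩) (d := d)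
      (by simpa using hn)
    simpa using h3
  refine (h1.comp h2).mono subset_rfl ?_ (le_of_eq ?_) (by omega)
  · rintro x ⟨i, j, rfl⟩
    right
    exact ⟨(i, j), by simp [Matrix.mul_apply]⟩
  · simp only [Fintype.card_prod, Fintype.card_fin]
    ring

section

variable {R : Type} [CommRing R] [Algebra K R]

/-- an embedding into a union of blocks -/
theorem exists_emb (L κ : Type) [Fintype L] [Fintype κ] (a : ℕ)
    (h : Fintype.card L ≤ a * Fintype.card κ) : Nonempty (L ↪ Fin a × κ) := by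
  rw [Function.Embedding.nonempty_iff_card_le, Fintype.card_prod, Fintype.card_fin]
  exact h

/-- the values of many linear combinations of many vectors, computed blockwise -/
theorem DMM.comb {κ : Type} [Fintype κ] {g e : ℕ} (hg : DMM K κ g e) {T : Set R}
    (hT : ∀ c : K, algebraMap K R c ∈ T) {L E : Type} [Fintype L] [Fintype E] {a b : ℕ}
    (hL : Fintype.card L ≤ a * Fintype.card κ) (hE : Fintype.card E ≤ b * Fintype.card κ)
    (u : L → κ → R) (x : E → κ → R) (hu : ∀ l i, u l i ∈ T) (hx : ∀ e i, x e i ∈ T) :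
    DCost T (Set.range fun t : L × E => ∑ i, u t.1 i * x t.2 i) (a * b * g) e := by
  classical
  have h0 : (0 : R) ∈ T := by simpa using hT 0
  obtain ⟨φ⟩ := exists_emb L κ a hL
  obtain ⟨ψ⟩ := exists_emb E κ b hE
  let u' : Fin a × κ → κ → R := Function.extend φ u 0
  let x' : Fin b × κ → κ → R := Function.extend ψ x 0
  have hu' : ∀ z i, u' z i ∈ T := by
    intro z i
    by_cases hz : ∃ l, φ l = z
    · obtain ⟨l, rfl⟩ := hz
      simp only [u', φ.injective.extend_apply]
      exact hu l i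
    · simp only [u', Function.extend_apply' _ _ _ hz]
      exact h0
  have hx' : ∀ z i, x' z i ∈ T := by
    intro z i
    by_cases hz : ∃ l, ψ l = z
    · obtain ⟨l, rfl⟩ := hz
      simp only [x', ψ.injective.extend_apply]
      exact hx l i
    · simp only [x', Function.extend_apply' _ _ _ hz]
      exact h0
  have h1 := DCost.iUnion (T := T) (ι := Fin a × Fin b)
    (P := fun z => {y | ∃ p q : κ, y = ((Matrix.of fun p i => u' (z.1, p) i) *
      (Matrix.of fun i q => x' (z.2, q) i) : Matrix κ κ R) p q}) (s := g) (d := e)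
    (fun z => hg R T hT _ _ (fun i j => hu' _ _) fun i j => hx' _ _)
  refine h1.mono subset_rfl ?_ (le_of_eq (by simp)) le_rfl
  rintro _ ⟨⟨l, y⟩, rfl⟩
  refine Set.mem_iUnion.2 ⟨((φ l).1, (ψ y).1), (φ l).2, (ψ y).2, ?_⟩
  rw [Matrix.mul_apply]
  simp only [Matrix.of_apply, Prod.mk.eta, u', x', φ.injective.extend_apply,
    ψ.injective.extend_apply]

/-- many linear combinations of the entries of long vectors, computed blockwise -/
theorem DMM.comb_long {κ : Type} [Fintype κ] {g e : ℕ} (hg : DMM K κ g e) {T : Set R}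
    (hT : ∀ c : K, algebraMap K R c ∈ T) {L E : Type} [Fintype L] [Fintype E] {a b d : ℕ}
    (hL : Fintype.card L ≤ a * Fintype.card κ) (hE : Fintype.card E ≤ b * Fintype.card κ)
    (ha : a ≤ 2 ^ d) (w : κ → L → R) (y : E → L → R) (hw : ∀ i l, w i l ∈ T)
    (hy : ∀ e l, y e l ∈ T) :
    DCost T (Set.range fun t : κ × E => ∑ l, w t.1 l * y t.2 l)
      (a * b * g + Fintype.card κ * (b * Fintype.card κ) * a) (e + d) := by
  classical
  have h0 : (0 : R) ∈ T := by simpa using hT 0
  obtain ⟨φ⟩ := exists_emb L κ a hL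
  obtain ⟨ψ⟩ := exists_emb E κ b hE
  let w' : κ → Fin a × κ → R := fun i => Function.extend φ (w i) 0
  let y' : Fin b × κ → Fin a × κ → R := fun z =>
    Function.extend ψ (fun e => Function.extend φ (y e) 0) 0 z
  have hw' : ∀ i z, w' i z ∈ T := by
    intro i z
    by_cases hz : ∃ l, φ l = z
    · obtain ⟨l, rfl⟩ := hz
      simp only [w', φ.injective.extend_apply]
      exact hw i l
    · simp only [w', Function.extend_apply' _ _ _ hz]
      exact h0
  have hy' : ∀ z z', y' z z' ∈ T := by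
    intro z z'
    by_cases hz : ∃ l, ψ l = z
    · obtain ⟨l, rfl⟩ := hz
      simp only [y', ψ.injective.extend_apply]
      by_cases hz' : ∃ l, φ l = z'
      · obtain ⟨l', rfl⟩ := hz'
        simp only [φ.injective.extend_apply]
        exact hy l l'
      · simp only [Function.extend_apply' _ _ _ hz']
        exact h0
    · simp only [y', Function.extend_apply' _ _ _ hz]
      exact h0
  let M : Fin a × Fin b → Matrix κ κ R := fun z =>
    (Matrix.of fun i p => w' i (z.1, p)) * (Matrix.of fun p q => y' (z.2, q) (z.1, p))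
  have h1 := DCost.iUnion (T := T) (ι := Fin a × Fin b)
    (P := fun z => {v | ∃ p q : κ, v = M z p q}) (s := g) (d := e)
    (fun z => hg R T hT _ _ (fun i j => hw' _ _) fun i j => hy' _ _)
  have h2 := DCost.range (T := T ∪ ⋃ z : Fin a × Fin b, {v | ∃ p q : κ, v = M z p q})
    (x := fun t : κ × Fin b × κ => ∑ α : Fin a, M (α, t.2.1) t.1 t.2.2) (s := a) (d := d)
    (fun t => by
      have h3 := DCost.sum (T := T ∪ ⋃ z : Fin a × Fin b, {v | ∃ p q : κ, v = M z p q})
        (Or.inl h0) (univ : Finset (Fin a)) (fun α => M (α, t.2.1) t.1 t.2.2)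
        (fun α _ => Or.inr (Set.mem_iUnion.2 ⟨(α, t.2.1), t.1, t.2.2, rfl⟩)) (d := d)
        (by simpa using ha)
      simpa using h3)
  refine (h1.comp h2).mono subset_rfl ?_ (le_of_eq (by simp)) le_rfl
  rintro _ ⟨⟨i, v⟩, rfl⟩
  right
  refine ⟨(i, (ψ v).1, (ψ v).2), ?_⟩
  simp only [M, Matrix.mul_apply, Matrix.of_apply, Prod.mk.eta]
  rw [← Fintype.sum_prod_type (f := fun z : Fin a × κ => w' i z * y' (ψ v) z)]
  simp only [y', ψ.injective.extend_apply]
  symm
  refine Fintype.sum_of_injective φ φ.injective _ _ ?_ ?_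
  · intro z hz
    have hz' : ¬ ∃ l, φ l = z := by simpa using hz
    simp only [w', Function.extend_apply' _ _ _ hz', Pi.zero_apply, zero_mul]
  · intro l
    simp only [w', φ.injective.extend_apply]

end

/-- **The recursive step.** -/
theorem DMM.step {q r : ℕ} (hr : RankLE K q q q r) {ι : Type} [Fintype ι] {f d g e : ℕ}
    (h : DMM K ι f d) (hg : DMM K (Fin q × Fin q) g e) {a b D : ℕ} (ha : r ≤ a * q ^ 2)
    (hb : Fintype.card ι ^ 2 ≤ b * q ^ 2) (haD : a ≤ 2 ^ D) :
    DMM K (Fin q × ι) (r * f + 3 * (a * b * g) + a * b * q ^ 4) (d + 2 * e + D) := by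
  classical
  obtain ⟨U, V, W, hco⟩ := hr
  intro R _ _ T hT A B hA hB
  have h0 : (0 : R) ∈ T := by simpa using hT 0
  have hcard : Fintype.card (Fin q × Fin q) = q ^ 2 := by
    rw [Fintype.card_prod, Fintype.card_fin, sq]
  have hL : Fintype.card (Fin r) ≤ a * Fintype.card (Fin q × Fin q) := by
    rw [hcard, Fintype.card_fin]
    exact ha
  have hE : Fintype.card (ι × ι) ≤ b * Fintype.card (Fin q × Fin q) := by
    rw [hcard, Fintype.card_prod, ← sq]
    exact hb
  -- first linear forms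
  let A' : Fin r → Matrix ι ι R := fun l => Matrix.of fun x y =>
    ∑ t : Fin q × Fin q, algebraMap K R (U l t.1 t.2) * A (t.1, x) (t.2, y)
  let B' : Fin r → Matrix ι ι R := fun l => Matrix.of fun x y =>
    ∑ t : Fin q × Fin q, algebraMap K R (V l t.1 t.2) * B (t.1, x) (t.2, y)
  let PA : Set R := Set.range fun t : Fin r × (ι × ι) => A' t.1 t.2.1 t.2.2
  let PB : Set R := Set.range fun t : Fin r × (ι × ι) => B' t.1 t.2.1 t.2.2
  have hPA : DCost T PA (a * b * g) e :=
    hg.comb hT hL hE (fun l t => algebraMap K R (U l t.1 t.2))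
      (fun z t => A (t.1, z.1) (t.2, z.2)) (fun l t => hT _) (fun z t => hA _ _)
  have hPB : DCost T PB (a * b * g) e :=
    hg.comb hT hL hE (fun l t => algebraMap K R (V l t.1 t.2))
      (fun z t => B (t.1, z.1) (t.2, z.2)) (fun l t => hT _) (fun z t => hB _ _)
  -- the products
  let PC : Set R := ⋃ l : Fin r, {x | ∃ i j, x = (A' l * B' l) i j}
  have hPC : DCost (T ∪ (PA ∪ PB)) PC (r * f) d := by
    have := DCost.iUnion (T := T ∪ (PA ∪ PB)) (ι := Fin r)
      (P := fun l => {x | ∃ i j, x = (A' l * B' l) i j}) (s := f) (d := d) ?_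
    · simpa using this
    · intro l
      refine h R _ (fun c => Or.inl (hT c)) (A' l) (B' l) ?_ ?_
      · intro i j
        exact Or.inr (Or.inl ⟨(l, (i, j)), rfl⟩)
      · intro i j
        exact Or.inr (Or.inr ⟨(l, (i, j)), rfl⟩)
  -- the outputs
  have hABC : DCost T ((PA ∪ PB) ∪ PC) ((a * b * g + a * b * g) + r * f) (e + d) :=
    (hPA.union hPB).comp hPC
  let PD : Set R := Set.range fun t : (Fin q × Fin q) × (ι × ι) =>
    ∑ l, algebraMap K R (W l t.1.1 t.1.2) * (A' l * B' l) t.2.1 t.2.2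
  have hPD : DCost (T ∪ ((PA ∪ PB) ∪ PC)) PD
      (a * b * g + q ^ 2 * (b * q ^ 2) * a) (e + D) := by
    have h5 := hg.comb_long (T := T ∪ ((PA ∪ PB) ∪ PC)) (R := R) (fun c => Or.inl (hT c)) hL hE haD
      (fun t l => algebraMap K R (W l t.1 t.2)) (fun z l => (A' l * B' l) z.1 z.2)
      (fun l t => Or.inl (hT _)) (fun z l => Or.inr (Or.inr
        (Set.mem_iUnion.2 ⟨l, z.1, z.2, rfl⟩)))
    rw [hcard] at h5
    exact h5
  refine (hABC.comp hPD).mono subset_rfl ?_ (le_of_eq (by ring)) (le_of_eq (by ring))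
  rintro _ ⟨⟨i, a⟩, ⟨k, b⟩, rfl⟩
  right
  refine ⟨((i, k), (a, b)), ?_⟩
  simp only
  -- the identity
  have e1 : ∀ l, (A' l * B' l) a b = ∑ s : (Fin q × Fin q) × (Fin q × Fin q),
      algebraMap K R (U l s.1.1 s.1.2 * V l s.2.1 s.2.2) *
        ∑ y, A (s.1.1, a) (s.1.2, y) * B (s.2.1, y) (s.2.2, b) := by
    intro l
    rw [Matrix.mul_apply, Fintype.sum_prod_type (f := fun s : (Fin q × Fin q) × (Fin q × Fin q) =>
      algebraMap K R (U l s.1.1 s.1.2 * V l s.2.1 s.2.2) *
        ∑ y, A (s.1.1, a) (s.1.2, y) * B (s.2.1, y) (s.2.2, b))]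
    have e3 : ∀ y, A' l a y * B' l y b = ∑ s1 : Fin q × Fin q, ∑ s2 : Fin q × Fin q,
        (algebraMap K R (U l s1.1 s1.2) * A (s1.1, a) (s1.2, y)) *
          (algebraMap K R (V l s2.1 s2.2) * B (s2.1, y) (s2.2, b)) := by
      intro y
      simp only [A', B', Matrix.of_apply]
      exact Finset.sum_mul_sum _ _ _ _
    simp only [e3]
    rw [Finset.sum_comm]
    refine Finset.sum_congr rfl fun s1 _ => ?_
    rw [Finset.sum_comm]
    refine Finset.sum_congr rfl fun s2 _ => ?_
    rw [Finset.mul_sum]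
    refine Finset.sum_congr rfl fun y _ => ?_
    rw [map_mul]
    ring
  have e2 : ∑ l, algebraMap K R (W l i k) * (A' l * B' l) a b =
      ∑ s : (Fin q × Fin q) × (Fin q × Fin q),
        algebraMap K R (∑ l, U l s.1.1 s.1.2 * V l s.2.1 s.2.2 * W l i k) *
        ∑ y, A (s.1.1, a) (s.1.2, y) * B (s.2.1, y) (s.2.2, b) := by
    simp only [e1, Finset.mul_sum, map_sum, Finset.sum_mul]
    rw [Finset.sum_comm]
    refine Finset.sum_congr rfl fun s _ => ?_
    rw [Finset.sum_comm]
    refine Finset.sum_congr rfl fun y _ => Finset.sum_congr rfl fun l _ => ?_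
    simp only [map_mul]
    ring
  rw [e2]
  simp only [hco]
  rw [Matrix.mul_apply]
  rw [Fintype.sum_prod_type (f := fun s : (Fin q × Fin q) × (Fin q × Fin q) =>
    algebraMap K R (if s.1.1 = i ∧ s.1.2 = s.2.1 ∧ s.2.2 = k then 1 else 0) *
        ∑ y, A (s.1.1, a) (s.1.2, y) * B (s.2.1, y) (s.2.2, b))]
  simp only [Fintype.sum_prod_type]
  rw [Finset.sum_eq_single i]
  · refine Finset.sum_congr rfl fun j _ => ?_
    rw [Finset.sum_eq_single j, Finset.sum_eq_single k]
    · simp
    · intro k' _ hk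
      rw [if_neg (by rintro ⟨_, _, h3⟩; exact hk h3)]
      simp
    · simp
    · intro j' _ hj
      refine Finset.sum_eq_zero fun k' _ => ?_
      rw [if_neg (by rintro ⟨_, h2, _⟩; exact hj h2.symm)]
      simp
    · simp
  · intro i' _ hi
    refine Finset.sum_eq_zero fun j _ => Finset.sum_eq_zero fun j' _ =>
      Finset.sum_eq_zero fun k' _ => ?_
    rw [if_neg (by rintro ⟨h1, _, _⟩; exact hi h1)]
    simp
  · simp

/-- the recursive step for powers of two -/
theorem DMM.step_two {k j r : ℕ} (hj : 2 * j ≤ k) (hr : RankLE K (2 ^ j) (2 ^ j) (2 ^ j) r)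
    {f d g e : ℕ} (h : DMM K (Fin (2 ^ (k - j))) f d) (hg : DMM K (Fin (2 ^ (2 * j))) g e)
    {a : ℕ} (ha : r ≤ a * 2 ^ (2 * j)) {D : ℕ} (haD : a ≤ 2 ^ D) :
    DMM K (Fin (2 ^ k)) (r * f + 3 * (a * 2 ^ (2 * (k - 2 * j)) * g) +
      a * 2 ^ (2 * (k - 2 * j)) * 2 ^ (4 * j)) (d + 2 * e + D) := by
  have e1 : Fin (2 ^ j) × Fin (2 ^ j) ≃ Fin (2 ^ (2 * j)) := Fintype.equivOfCardEq (by
    rw [Fintype.card_prod, Fintype.card_fin, Fintype.card_fin, two_mul, pow_add])
  have e2 : Fin (2 ^ k) ≃ Fin (2 ^ j) × Fin (2 ^ (k - j)) := Fintype.equivOfCardEq (by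
    rw [Fintype.card_prod, Fintype.card_fin, Fintype.card_fin, Fintype.card_fin, ← pow_add]
    congr 1
    omega)
  have h1 := DMM.step hr h (hg.reindex e1) (a := a) (b := 2 ^ (2 * (k - 2 * j))) (D := D)
    (by rw [← pow_mul, mul_comm j 2]; exact ha)
    (by
      rw [Fintype.card_fin, ← pow_mul, ← pow_mul, ← pow_add]
      exact Nat.pow_le_pow_right (by norm_num) (by omega)) haD
  refine (h1.reindex e2).mono (le_of_eq ?_) le_rfl
  rw [← pow_mul (2 : ℕ) j 4, mul_comm j 4]

end Pool.Agent.Helper16K9.Fast
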