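import Pool.Agent.H676.G.R_pool_sql_team_seeded_1e53cb71.Helper16K9.Fast.Rec
import Pool.Agent.H676.G.R_seed8.W956.KF.Explicit

set_option autoImplicit false

/-!
# Few multiplications give small circuits
-/

namespace Pool.Agent.Helper16K9.Fast

open Finset Pool.Agent.W956.KF Pool.Agent.H522R2 Pool.Agent.H522R2.Circuit Pool.Agent.H88R3.MM
open Pool.Agent.W956.FF (expMat)

/-- The least number of nonscalar multiplication gates (additions, scalar multiplications and depth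
are not counted) of a circuit over `F` which computes the product of two generic `m × m`
matrices. -/
noncomputable def mulMM (F : Type) [Field F] (m : ℕ) : ℕ :=
  sInf {s | ∃ C : Circuit F ((Fin m × Fin m) ⊕ (Fin m × Fin m)), ComputesMM C ∧
    C.nonscalarCount = s}

/-- The product of two generic `n × n` matrices is computed by a circuit over `F` of size at most
`s` at nodes of depth at most `d`. -/
def SizeDepth (F : Type) [Field F] (n : ℕ) (s d : ℝ) : Prop :=
  ∃ C : Circuit F ((Fin n × Fin n) ⊕ (Fin n × Fin n)), (C.size : ℝ) ≤ s ∧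
    ∀ i j : Fin n, ∃ v : Fin C.nodes, C.poly v = entryMM F n i j ∧ (C.depth v : ℝ) ≤ d

theorem exists_circuit_of_dmm {F : Type} [Field F] {n s d : ℕ} (h : DMM F (Fin n) s d) :
    SizeDepth F n s d := by
  have h1 : DCost (inputs F (Vars n)) (outMM F n) s d := by
    refine (h (MvPolynomial (Vars n) F) (inputs F (Vars n)) C_mem_inputs
      (Matrix.of fun i k => MvPolynomial.X (Sum.inl (i, k)))
      (Matrix.of fun k j => MvPolynomial.X (Sum.inr (k, j)))
      (fun i j => X_mem_inputs _) (fun i j => X_mem_inputs _)).mono subset_rfl ?_ le_rfl le_rfl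
    rintro _ ⟨⟨i, j⟩, rfl⟩
    exact ⟨i, j, rfl⟩
  obtain ⟨C, h2, h3⟩ := exists_circuit_of_dcost (Set.finite_range _) h1
  refine ⟨C, by exact_mod_cast h2, fun i j => ?_⟩
  obtain ⟨v, hv, hd⟩ := h3 _ ⟨(i, j), rfl⟩
  exact ⟨v, hv, by exact_mod_cast hd⟩

theorem trank_le_mul {F : Type} [Field F] (m : ℕ) : trank F m m m ≤ 2 * mulMM F m := by
  classical
  have hne : {s | ∃ C : Circuit F ((Fin m × Fin m) ⊕ (Fin m × Fin m)), ComputesMM C ∧
      C.nonscalarCount = s}.Nonempty := by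
    obtain ⟨C, hC, -⟩ := exists_circuit_MM F m
    exact ⟨_, C, hC, rfl⟩
  obtain ⟨C, hC, hs⟩ := Nat.sInf_mem hne
  obtain ⟨W, hW⟩ := exists_alg C hC
  have h1 := rankLE_of_fintype (K := F) (m := m) (n := m) (p := m) _ _ _
    (fun i i' j j' k k' => hW.coeff i i' j j' k k')
  have h2 := trank_le h1
  rw [Fintype.card_prod, Fintype.card_bool] at h2
  have h3 : Fintype.card {g : Fin C.nodes // C.IsNonscalar g} = mulMM F m := by
    rw [mulMM, ← hs, Circuit.nonscalarCount, Nat.card_eq_fintype_card]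
  rw [h3] at h2
  omega

/-- **Main bound.** -/
theorem main_bound {τ η : ℝ} (hτ : 2 ≤ τ) (hη : 0 < η) : ∃ κ : ℝ, 0 < κ ∧
    ∀ (F : Type) [Field F] (n : ℕ) (φ : ℝ), 1 ≤ n → 1 ≤ φ →
      (∀ m, 1 ≤ m → m ≤ 2 * n → (trank F m m m : ℝ) ≤ φ * (m : ℝ) ^ τ) →
      SizeDepth F n (κ * (n : ℝ) ^ τ * (Real.logb 2 n + 2) ^ (κ * Real.log (9 * φ)))
        (κ * (Real.logb 2 n + 2) ^ (1 + η)) := by
  obtain ⟨δ, k₀, hδ, hδ3, hp⟩ := exists_params hη
  refine ⟨max (2 * 8 ^ k₀ * (2 : ℝ) ^ τ) (4 / δ), lt_max_of_lt_right (by positivity),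
    fun F _ n φ hn hφ h => ?_⟩
  set κ : ℝ := max (2 * 8 ^ k₀ * (2 : ℝ) ^ τ) (4 / δ) with hκ
  set k := Nat.clog 2 n with hk
  have h1 : n ≤ 2 ^ k := Nat.le_pow_clog (by norm_num) n
  have h2 : 2 ^ k ≤ 2 * n := by
    rcases Nat.eq_zero_or_pos k with hz | hz
    · rw [hz, pow_zero]
      omega
    · have hn2 : 1 < n := by
        by_contra hcon
        have : n = 1 := by omega
        rw [this, Nat.clog_one_right] at hk
        omega
      have := Nat.pow_pred_clog_lt_self (b := 2) (by norm_num) hn2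
      rw [← hk] at this
      calc 2 ^ k = 2 * 2 ^ (k - 1) := by
            rw [← pow_succ']; congr 1; omega
        _ ≤ 2 * n := Nat.mul_le_mul_left _ this.le
  have hr : ∀ j ≤ k, (trank F (2 ^ j) (2 ^ j) (2 ^ j) : ℝ) ≤ φ * (2 : ℝ) ^ (τ * j) := by
    intro j hj
    have h3 := h (2 ^ j) (Nat.one_le_two_pow) ((Nat.pow_le_pow_right (by norm_num) hj).trans h2)
    refine h3.trans (le_of_eq ?_)
    rw [two_rpow_nat, ← Real.rpow_mul (by norm_num), mul_comm (j : ℝ) τ]
  obtain ⟨s, d, hsd, hs, hd⟩ := rec_bound (K := F) hτ hη hδ hδ3 hp hφ k hr k le_rfl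
  obtain ⟨C, hC1, hC2⟩ := exists_circuit_of_dmm (hsd.of_le h1)
  have hn0 : (0 : ℝ) < n := by exact_mod_cast hn
  have hL : (k : ℝ) + 1 ≤ Real.logb 2 n + 2 := by
    have h4 : Real.logb 2 ((2 : ℝ) ^ (k : ℝ)) ≤ Real.logb 2 (2 * n) := by
      refine Real.logb_le_logb_of_le (by norm_num) (by positivity) ?_
      rw [← two_rpow_nat]
      exact_mod_cast h2
    rw [Real.logb_rpow (by norm_num) (by norm_num), Real.logb_mul (by norm_num) hn0.ne',
      Real.logb_self_eq_one (by norm_num)] at h4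
    linarith
  have hk0 : (0 : ℝ) ≤ k := Nat.cast_nonneg _
  have hL1 : 1 ≤ Real.logb 2 n + 2 := by linarith
  have hκ1 : 2 * 8 ^ k₀ * (2 : ℝ) ^ τ ≤ κ := le_max_left _ _
  have hκ2 : 4 / δ ≤ κ := le_max_right _ _
  have hκ3 : 2 / δ ≤ κ := le_trans (by gcongr; norm_num) hκ2
  have hκ0 : 0 < κ := lt_of_lt_of_le (by positivity) hκ2
  have hlog : 0 < Real.log (9 * φ) := Real.log_pos (by linarith)
  refine ⟨C, hC1.trans (hs.trans ?_), fun i j => ?_⟩
  · have e1 : ((k : ℝ) + 1) ^ (2 / δ * Real.log (9 * φ)) ≤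
        (Real.logb 2 n + 2) ^ (κ * Real.log (9 * φ)) := by
      calc ((k : ℝ) + 1) ^ (2 / δ * Real.log (9 * φ))
          ≤ (Real.logb 2 n + 2) ^ (2 / δ * Real.log (9 * φ)) :=
            Real.rpow_le_rpow (by positivity) hL (by positivity)
        _ ≤ _ := Real.rpow_le_rpow_of_exponent_le hL1
            (mul_le_mul_of_nonneg_right hκ3 hlog.le)
    have e2 : (2 : ℝ) ^ (τ * k) ≤ (2 : ℝ) ^ τ * (n : ℝ) ^ τ := by
      rw [← Real.mul_rpow (by norm_num) hn0.le, mul_comm τ, Real.rpow_mul (by norm_num),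
        ← two_rpow_nat]
      refine Real.rpow_le_rpow (by positivity) ?_ (by linarith)
      exact_mod_cast h2
    calc 2 * 8 ^ k₀ * ((k : ℝ) + 1) ^ (2 / δ * Real.log (9 * φ)) * (2 : ℝ) ^ (τ * k)
        ≤ 2 * 8 ^ k₀ * (Real.logb 2 n + 2) ^ (κ * Real.log (9 * φ)) *
          ((2 : ℝ) ^ τ * (n : ℝ) ^ τ) := by
          refine mul_le_mul (mul_le_mul_of_nonneg_left e1 (by positivity)) e2 (by positivity) ?_
          positivity
      _ = (2 * 8 ^ k₀ * (2 : ℝ) ^ τ) * (n : ℝ) ^ τ *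
          (Real.logb 2 n + 2) ^ (κ * Real.log (9 * φ)) := by ring
      _ ≤ _ := by
          refine mul_le_mul_of_nonneg_right (mul_le_mul_of_nonneg_right hκ1 ?_) ?_
          · positivity
          · positivity
  · obtain ⟨v, hv, hvd⟩ := hC2 i j
    refine ⟨v, hv, hvd.trans (hd.trans ?_)⟩
    refine mul_le_mul hκ2 (Real.rpow_le_rpow (by positivity) hL (by linarith)) (by positivity)
      hκ0.le

end Pool.Agent.Helper16K9.Fast
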